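import Pool.Agent.Helper6.EC_B.Goals

/-!
# MP_ecc237_nt, Part B: the behaviour of `K` near zero (packet KAS)
-/

open MeasureTheory Filter Topology Set

noncomputable section

namespace EC237.PB.PkKAS

/-- `∫_0^∞ e^{-x} log x dx = -γ`. -/
theorem int_log : ∫ x in Ioi (0:ℝ), Real.log x * Real.exp (-x) = -gam := by
  have h1 := Complex.hasDerivAt_GammaIntegral (s := 1) (by simp)
  have h2 : HasDerivAt Complex.GammaIntegral (-(Real.eulerMascheroniConstant : ℂ)) 1 := by
    refine Complex.hasDerivAt_Gamma_one.congr_of_eventuallyEq ?_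
    have hopen : IsOpen {s : ℂ | 0 < s.re} := Complex.continuous_re.isOpen_preimage _ isOpen_Ioi
    filter_upwards [hopen.mem_nhds (show (1:ℂ) ∈ {s : ℂ | 0 < s.re} by simp)] with a ha
    exact (Complex.Gamma_eq_integral ha).symm
  have h3 := h1.unique h2
  have h4 : ∫ t : ℝ in Ioi 0, (t:ℂ) ^ ((1:ℂ) - 1) * (Real.log t * Real.exp (-t)) =
      ((∫ x in Ioi (0:ℝ), Real.log x * Real.exp (-x) : ℝ) : ℂ) := by
    rw [← integral_complex_ofReal]
    refine setIntegral_congr_fun measurableSet_Ioi fun t _ => ?_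
    simp
  rw [h4] at h3
  exact_mod_cast h3

theorem intg_zero_one : IntegrableOn (fun x : ℝ => Real.log x * Real.exp (-x)) (Ioc 0 1) := by
  have h1 : IntegrableOn (fun x : ℝ => Real.log x) (Ioc 0 1) := by
    have := intervalIntegral.intervalIntegrable_log' (a := 0) (b := 1)
    rwa [intervalIntegrable_iff_integrableOn_Ioc_of_le zero_le_one] at this
  refine Integrable.mono' h1.norm ?_ ?_
  · exact (Real.measurable_log.mul (Real.measurable_exp.comp measurable_neg)).aestronglyMeasurable
  · rw [ae_restrict_iff' measurableSet_Ioc]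
    refine Eventually.of_forall fun x hx => ?_
    rw [norm_mul, Real.norm_eq_abs (Real.exp _), abs_of_pos (Real.exp_pos _)]
    have : Real.exp (-x) ≤ 1 := Real.exp_le_one_iff.2 (by linarith [hx.1])
    exact mul_le_of_le_one_right (norm_nonneg _) this

theorem intg_one : IntegrableOn (fun x : ℝ => Real.log x * Real.exp (-x)) (Ioi 1) := by
  have h1 : IntegrableOn (fun x : ℝ => Real.exp (-x) * x ^ ((2:ℝ) - 1)) (Ioi 0) :=
    Real.GammaIntegral_convergent (by norm_num)
  refine Integrable.mono' (h1.mono_set (Ioi_subset_Ioi zero_le_one)) ?_ ?_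
  · exact (Real.measurable_log.mul (Real.measurable_exp.comp measurable_neg)).aestronglyMeasurable
  · rw [ae_restrict_iff' measurableSet_Ioi]
    refine Eventually.of_forall fun x hx => ?_
    have hx1 : (1:ℝ) < x := hx
    have h2 : (2:ℝ) - 1 = 1 := by norm_num
    rw [norm_mul, Real.norm_eq_abs (Real.exp _), abs_of_pos (Real.exp_pos _), h2, Real.rpow_one,
      mul_comm, Real.norm_eq_abs, abs_of_nonneg (Real.log_nonneg hx1.le)]
    refine mul_le_mul_of_nonneg_left ?_ (Real.exp_pos _).le
    linarith [Real.log_le_sub_one_of_pos (show 0 < x by linarith)]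

theorem intg : IntegrableOn (fun x : ℝ => Real.log x * Real.exp (-x)) (Ioi 0) := by
  have := intg_zero_one.union intg_one
  rwa [Ioc_union_Ioi_eq_Ioi zero_le_one] at this

/-- `E(s) = ∫_0^∞ exp(-s e^u) du`. -/
def EE (s : ℝ) : ℝ := ∫ u in Ioi (0:ℝ), Real.exp (-(s * Real.exp u))

theorem intg_EE {s : ℝ} (hs : 0 < s) :
    IntegrableOn (fun u : ℝ => Real.exp (-(s * Real.exp u))) (Ioi 0) := by
  refine Integrable.mono' (exp_neg_integrableOn_Ioi 0 hs) ?_ ?_
  · exact (by fun_prop : Continuous fun u : ℝ => Real.exp (-(s * Real.exp u))).aestronglyMeasurable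
  · rw [ae_restrict_iff' measurableSet_Ioi]
    refine Eventually.of_forall fun u _ => ?_
    rw [Real.norm_eq_abs, abs_of_pos (Real.exp_pos _)]
    refine Real.exp_le_exp.2 ?_
    have h1 := Real.add_one_le_exp u
    nlinarith

theorem intg_div {s : ℝ} (hs : 0 < s) :
    IntegrableOn (fun x : ℝ => Real.exp (-x) / x) (Ici s) := by
  rw [integrableOn_Ici_iff_integrableOn_Ioi]
  refine Integrable.mono' ((integrableOn_exp_neg_Ioi s).const_mul s⁻¹) ?_ ?_
  · exact ((Real.measurable_exp.comp measurable_neg).div measurable_id).aestronglyMeasurable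
  · rw [ae_restrict_iff' measurableSet_Ioi]
    refine Eventually.of_forall fun x hx => ?_
    have hx1 : s < x := hx
    have hx0 : 0 < x := hs.trans hx1
    rw [Real.norm_eq_abs, abs_of_pos (div_pos (Real.exp_pos _) hx0), div_eq_inv_mul]
    refine mul_le_mul_of_nonneg_right ?_ (Real.exp_pos _).le
    exact inv_anti₀ hs hx1.le

theorem EE_eq {s : ℝ} (hs : 0 < s) : EE s = ∫ x in Ioi s, Real.exp (-x) / x := by
  have himg : ∀ u ∈ Ici (0:ℝ), s * Real.exp u ∈ Ici s := by
    intro u hu
    have : (1:ℝ) ≤ Real.exp u := Real.one_le_exp hu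
    show s ≤ s * Real.exp u
    nlinarith
  have hfg : ∀ u : ℝ, ((fun x : ℝ => Real.exp (-x) / x) ∘ fun u => s * Real.exp u) u *
      (s * Real.exp u) = Real.exp (-(s * Real.exp u)) := by
    intro u
    have : s * Real.exp u ≠ 0 := (mul_pos hs (Real.exp_pos u)).ne'
    simp only [Function.comp]
    field_simp
  have h := integral_comp_mul_deriv_Ioi (a := 0) (f := fun u => s * Real.exp u)
    (f' := fun u => s * Real.exp u) (g := fun x : ℝ => Real.exp (-x) / x)
    (by fun_prop) (Tendsto.const_mul_atTop hs Real.tendsto_exp_atTop)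
    (fun u _ => ((Real.hasDerivAt_exp u).const_mul s).hasDerivWithinAt)
    (by
      rintro x ⟨u, hu, rfl⟩
      have : s * Real.exp u ≠ 0 := (mul_pos hs (Real.exp_pos u)).ne'
      exact ((Real.continuous_exp.comp continuous_neg).continuousAt.div continuousAt_id
        this).continuousWithinAt)
    ((intg_div hs).mono_set (by
      rintro x ⟨u, hu, rfl⟩
      exact himg u hu))
    (by
      rw [integrableOn_Ici_iff_integrableOn_Ioi]
      refine (intg_EE hs).congr_fun (fun u _ => (hfg u).symm) measurableSet_Ioi)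
  simp only [Real.exp_zero, mul_one] at h
  rw [← h]
  exact setIntegral_congr_fun measurableSet_Ioi fun u _ => (hfg u).symm

theorem parts {s : ℝ} (hs : 0 < s) : ∫ x in Ioi s, Real.exp (-x) / x =
    -(Real.exp (-s) * Real.log s) + ∫ x in Ioi s, Real.log x * Real.exp (-x) := by
  have i1 : IntegrableOn (fun x : ℝ => Real.exp (-x) / x) (Ioi s) :=
    (intg_div hs).mono_set Ioi_subset_Ici_self
  have i2 : IntegrableOn (fun x : ℝ => Real.log x * Real.exp (-x)) (Ioi s) :=
    intg.mono_set (Ioi_subset_Ioi hs.le)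
  have hlim : Tendsto (fun x : ℝ => Real.exp (-x) * Real.log x) atTop (𝓝 0) := by
    have h1 : Tendsto (fun x : ℝ => x ^ 1 * Real.exp (-x)) atTop (𝓝 0) :=
      Real.tendsto_pow_mul_exp_neg_atTop_nhds_zero 1
    refine tendsto_of_tendsto_of_tendsto_of_le_of_le' tendsto_const_nhds h1 ?_ ?_
    · filter_upwards [eventually_ge_atTop (1:ℝ)] with x hx
      exact mul_nonneg (Real.exp_pos _).le (Real.log_nonneg hx)
    · filter_upwards [eventually_ge_atTop (1:ℝ)] with x hx
      rw [pow_one, mul_comm]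
      refine mul_le_mul_of_nonneg_right ?_ (Real.exp_pos _).le
      linarith [Real.log_le_sub_one_of_pos (show 0 < x by linarith)]
  have h := integral_Ioi_of_hasDerivAt_of_tendsto' (a := s)
    (f := fun x : ℝ => Real.exp (-x) * Real.log x)
    (f' := fun x : ℝ => Real.exp (-x) / x - Real.log x * Real.exp (-x)) (m := 0)
    (fun x hx => by
      have hx0 : x ≠ 0 := (hs.trans_le hx).ne'
      have h1 : HasDerivAt (fun x : ℝ => Real.exp (-x)) (Real.exp (-x) * -1) x :=
        (hasDerivAt_neg x).exp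
      refine (h1.mul (Real.hasDerivAt_log hx0)).congr_deriv ?_
      ring)
    (i1.sub i2) hlim
  rw [integral_sub i1 i2] at h
  linarith

theorem split {s : ℝ} (hs : 0 < s) : ∫ x in Ioi s, Real.log x * Real.exp (-x) =
    -gam - ∫ x in Ioc 0 s, Real.log x * Real.exp (-x) := by
  have h1 : IntegrableOn (fun x : ℝ => Real.log x * Real.exp (-x)) (Ioc 0 s) :=
    intg.mono_set Ioc_subset_Ioi_self
  have h2 : IntegrableOn (fun x : ℝ => Real.log x * Real.exp (-x)) (Ioi s) :=
    intg.mono_set (Ioi_subset_Ioi hs.le)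
  have h3 := setIntegral_union (Ioc_disjoint_Ioi (le_refl s)) measurableSet_Ioi h1 h2
  rw [Ioc_union_Ioi_eq_Ioi hs.le, int_log] at h3
  linarith

theorem log_bd {s : ℝ} (hs : 0 < s) (hs1 : s ≤ 1) : s * |Real.log s| ≤ 2 * Real.sqrt s := by
  have h0 : 0 < Real.sqrt s := Real.sqrt_pos.2 hs
  have h1 : s = Real.sqrt s * Real.sqrt s := (Real.mul_self_sqrt hs.le).symm
  have h2 : Real.log s ≤ 0 := Real.log_nonpos hs.le hs1
  have h3 : Real.log (Real.sqrt s)⁻¹ ≤ (Real.sqrt s)⁻¹ - 1 :=
    Real.log_le_sub_one_of_pos (inv_pos.2 h0)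
  have h4 : Real.log s = 2 * Real.log (Real.sqrt s) := by
    rw [Real.log_sqrt hs.le]
    ring
  rw [Real.log_inv] at h3
  rw [abs_of_nonpos h2]
  have h5 : -Real.log s ≤ 2 * (Real.sqrt s)⁻¹ := by
    rw [h4]
    linarith
  calc s * -Real.log s ≤ s * (2 * (Real.sqrt s)⁻¹) := mul_le_mul_of_nonneg_left h5 hs.le
    _ = 2 * Real.sqrt s := by
      nth_rewrite 1 [h1]
      field_simp

theorem EE_bd {s : ℝ} (hs : 0 < s) (hs1 : s ≤ 1) :
    |EE s + Real.log s + gam| ≤ 5 * Real.sqrt s := by
  rw [EE_eq hs, parts hs, split hs]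
  have hl : Real.log s ≤ 0 := Real.log_nonpos hs.le hs1
  have hint : |∫ x in Ioc 0 s, Real.log x * Real.exp (-x)| ≤ s + s * |Real.log s| := by
    have hlog : IntegrableOn (fun x : ℝ => Real.log x) (Ioc 0 s) := by
      have := intervalIntegral.intervalIntegrable_log' (a := 0) (b := s)
      rwa [intervalIntegrable_iff_integrableOn_Ioc_of_le hs.le] at this
    have h1 : ‖∫ x in Ioc 0 s, Real.log x * Real.exp (-x)‖ ≤
        ∫ x in Ioc 0 s, -Real.log x := by
      refine norm_integral_le_of_norm_le hlog.neg ?_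
      rw [ae_restrict_iff' measurableSet_Ioc]
      refine Eventually.of_forall fun x hx => ?_
      have hx0 : 0 < x := hx.1
      have h2 : Real.log x ≤ 0 := Real.log_nonpos hx0.le (hx.2.trans hs1)
      rw [norm_mul, Real.norm_eq_abs (Real.exp _), abs_of_pos (Real.exp_pos _),
        Real.norm_eq_abs, abs_of_nonpos h2]
      have : Real.exp (-x) ≤ 1 := Real.exp_le_one_iff.2 (by linarith)
      exact mul_le_of_le_one_right (by linarith) this
    rw [Real.norm_eq_abs] at h1
    refine h1.trans (le_of_eq ?_)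
    rw [← intervalIntegral.integral_of_le hs.le, intervalIntegral.integral_neg,
      integral_log_from_zero, abs_of_nonpos hl]
    ring
  have hexp : |(1 - Real.exp (-s)) * Real.log s| ≤ s * |Real.log s| := by
    have h1 : Real.exp (-s) ≤ 1 := Real.exp_le_one_iff.2 (by linarith)
    have h2 : 1 - s ≤ Real.exp (-s) := by
      have := Real.add_one_le_exp (-s)
      linarith
    rw [abs_mul, abs_of_nonneg (by linarith : 0 ≤ 1 - Real.exp (-s))]
    exact mul_le_mul_of_nonneg_right (by linarith) (abs_nonneg _)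
  have hb := log_bd hs hs1
  have hsq : s ≤ Real.sqrt s := by
    have h0 : 0 ≤ Real.sqrt s := Real.sqrt_nonneg s
    have h1 : Real.sqrt s ≤ 1 := Real.sqrt_le_one.2 hs1
    nlinarith [Real.mul_self_sqrt hs.le]
  have e1 : -(Real.exp (-s) * Real.log s) + (-gam - ∫ x in Ioc 0 s, Real.log x * Real.exp (-x)) +
      Real.log s + gam = (1 - Real.exp (-s)) * Real.log s -
        ∫ x in Ioc 0 s, Real.log x * Real.exp (-x) := by ring
  rw [e1]
  refine (abs_sub _ _).trans ?_
  linarith

theorem Kb_bd {t : ℝ} (ht : 0 < t) : |Kb t - EE (t / 2)| ≤ t / 2 := by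
  have ht2 : 0 < t / 2 := by linarith
  have hle : ∀ u : ℝ, Real.exp (-(t * Real.cosh u)) ≤ Real.exp (-(t / 2 * Real.exp u)) := by
    intro u
    refine Real.exp_le_exp.2 ?_
    rw [Real.cosh_eq]
    have := Real.exp_pos (-u)
    nlinarith
  have hge : ∀ u : ℝ, Real.exp (-(t / 2 * Real.exp u)) - Real.exp (-(t * Real.cosh u)) ≤
      t / 2 * Real.exp (-u) := by
    intro u
    have e1 : Real.exp (-(t * Real.cosh u)) =
        Real.exp (-(t / 2 * Real.exp u)) * Real.exp (-(t / 2 * Real.exp (-u))) := by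
      rw [← Real.exp_add, Real.cosh_eq]
      congr 1
      ring
    rw [e1]
    have h1 : Real.exp (-(t / 2 * Real.exp u)) ≤ 1 := by
      refine Real.exp_le_one_iff.2 ?_
      have := Real.exp_pos u
      nlinarith
    have h2 := Real.add_one_le_exp (-(t / 2 * Real.exp (-u)))
    have h3 : Real.exp (-(t / 2 * Real.exp (-u))) ≤ 1 := by
      refine Real.exp_le_one_iff.2 ?_
      have := Real.exp_pos (-u)
      nlinarith
    have h4 := Real.exp_pos (-(t / 2 * Real.exp u))
    nlinarith
  have iE := intg_EE ht2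
  have iK : IntegrableOn (fun u : ℝ => Real.exp (-(t * Real.cosh u))) (Ioi 0) := by
    refine Integrable.mono' iE ?_ (Eventually.of_forall fun u => ?_)
    · exact (by fun_prop : Continuous fun u : ℝ =>
        Real.exp (-(t * Real.cosh u))).aestronglyMeasurable
    · rw [Real.norm_eq_abs, abs_of_pos (Real.exp_pos _)]
      exact hle u
  have iexp : IntegrableOn (fun u : ℝ => t / 2 * Real.exp (-u)) (Ioi 0) :=
    (integrableOn_exp_neg_Ioi 0).const_mul _
  unfold Kb EE
  rw [abs_sub_comm, ← integral_sub iE iK]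
  have h1 : ‖∫ u in Ioi (0:ℝ), (Real.exp (-(t / 2 * Real.exp u)) -
      Real.exp (-(t * Real.cosh u)))‖ ≤ ∫ u in Ioi (0:ℝ), t / 2 * Real.exp (-u) := by
    refine norm_integral_le_of_norm_le iexp (Eventually.of_forall fun u => ?_)
    rw [Real.norm_eq_abs, abs_of_nonneg (by linarith [hle u])]
    exact hge u
  rw [Real.norm_eq_abs, integral_const_mul, integral_exp_neg_Ioi_zero, mul_one] at h1
  exact h1

theorem thm : G_KAS := by
  refine ⟨6, fun t ht ht1 => ?_⟩
  have ht2 : 0 < t / 2 := by linarith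
  have h1 := Kb_bd ht
  have h2 := EE_bd ht2 (by linarith)
  have h3 : Real.sqrt (t / 2) ≤ Real.sqrt t := Real.sqrt_le_sqrt (by linarith)
  have h4 : t ≤ Real.sqrt t := by
    have h0 : 0 ≤ Real.sqrt t := Real.sqrt_nonneg t
    have h1 : Real.sqrt t ≤ 1 := Real.sqrt_le_one.2 ht1
    nlinarith [Real.mul_self_sqrt ht.le]
  have e1 : Kb t - Ld t = (Kb t - EE (t / 2)) + (EE (t / 2) + Real.log (t / 2) + gam) := by
    unfold Ld
    ring
  rw [e1]
  refine (abs_add_le _ _).trans ?_
  linarith

end EC237.PB.PkKAS
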